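import Pool.Agent.helper16.EXT.Spec3T

/-!
# EXT, block I: row IM1
-/

set_option autoImplicit false

open Finset

namespace Pool.Agent.EXT

open Pool.Agent.EXC

section
variable {K : Type} [Field K] {τ : K ≃+* K}

theorem IM1_xe_zero (a v : Lm C6 K) : xe C6 a 0 v = v := by
  unfold xe
  rw [zero_smul, zero_pow two_ne_zero, zero_mul, zero_smul, add_zero, add_zero]

theorem IM1_xtr (hESF : ESF_stmt) (hτ : ∀ x, τ (τ x) = x) {a : Lm C6 K} (ha : ExS τ a) : Xtr C6 a :=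
  ((f_EXF 6 C6 K (f_NBR 6 C6 _ _ _ f_DE6.2).1).2.2.1 a ((hESF K τ hτ).2 a ha).1).1

/-- normalisation of the image -/
theorem IM1_nrm (hIMF : IMF_stmt) (hESF : ESF_stmt) (hGFX : GFX_stmt) (hτ : ∀ x, τ (τ x) = x)
    {x : MulAut (GF τ)} (hx : RAF τ x) {a b : Lm C6 K} (ha : ExS τ a) (hb : ExS τ b) (hI : ImF τ x a b)
    {t : GF τ} (ht : IsF τ a 1 (t : Equiv.Perm (LT τ))) :
    ∃ v : K, τ v = v ∧ v ≠ 0 ∧ ExS τ (v • b) ∧ ImF τ x a (v • b) ∧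
      IsF τ (v • b) 1 ((x t : GF τ) : Equiv.Perm (LT τ)) := by
  obtain ⟨v, hvτ, hv⟩ := (hI t).1 ⟨1, map_one τ, ht⟩
  have hv0 : v ≠ 0 := by
    rintro rfl
    have h1 : x t = 1 := by
      apply Subtype.ext
      apply Equiv.ext
      intro w
      apply Subtype.ext
      rw [hv w, IM1_xe_zero]
      rfl
    have h2 : t = 1 := by
      have h3 : x t = x 1 := by rw [h1, map_one]
      exact x.injective h3
    have h4 : IsF τ a 0 (t : Equiv.Perm (LT τ)) := by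
      intro w
      rw [IM1_xe_zero, h2]
      rfl
    exact one_ne_zero (((hGFX K τ hτ).2 a ha).2.2.2.1 1 0 _ ht h4)
  have hXb := (f_XAU 6 C6 K b (IM1_xtr hESF hτ hb)).2.2.2 v
  refine ⟨v, hvτ, hv0, ((hESF K τ hτ).2 b hb).2.2.2.2.1 v hvτ hv0, ?_, ?_⟩
  · have h6 := (hIMF K τ hτ x hx).2.2.1 a b 1 v ha hb (map_one τ) hvτ one_ne_zero hv0 hI
    rwa [one_smul] at h6
  · intro w
    rw [hv w, hXb.2 1 w, mul_one]

end

theorem IM1 (hIJC : IJC_stmt) (hIFN : IFN_stmt) (hIAD : IAD_stmt) (hIMF : IMF_stmt) (hTFS : TFS_stmt)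
    (hUNF : UNF_stmt) (hESF : ESF_stmt) (hGFX : GFX_stmt) : IM1_stmt := by
  intro K _ _ τ hτ h3 x hx hyp a b₀ ha hb₀ hI₀ hT₀
  have ef := (hESF K τ hτ).2
  have hsym := (f_INV 6 C6 K).2.2.1
  have h1τ : τ 1 = 1 := map_one τ
  have hm1 : τ (-1) = -1 := by rw [map_neg, map_one]
  -- the element t
  obtain ⟨t₀, ht₀, htX⟩ := ((hGFX K τ hτ).2 a ha).1 1 h1τ
  set t : GF τ := ⟨t₀, ht₀⟩ with htdef
  have ht : IsF τ a 1 (t : Equiv.Perm (LT τ)) := htX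
  obtain ⟨v, hvτ, hv0, hb, hI, hxt⟩ := IM1_nrm hIMF hESF hGFX hτ hx ha hb₀ hI₀ ht
  have hT : TpS τ a (v • b₀) (-1) := by
    have h1 := (hTFS K τ hτ a b₀ (-1) hT₀).2.2.2.2.1 1 v h1τ hvτ one_ne_zero hv0
    rwa [one_smul] at h1
  generalize v • b₀ = b at hb hI hxt hT
  obtain ⟨f, hf, haf, hbf, hfm⟩ := (hIFN K τ hτ a b).2 hT
  -- the element s
  obtain ⟨s₀, hs₀, hsX⟩ := ((hGFX K τ hτ).2 f hf).1 1 h1τ
  set s : GF τ := ⟨s₀, hs₀⟩ with hsdef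
  have hs : IsF τ f 1 (s : Equiv.Perm (LT τ)) := hsX
  obtain ⟨d₀, hd₀, hId₀⟩ := hx f hf
  obtain ⟨v', hv'τ, hv'0, hd, hId, hxs⟩ := IM1_nrm hIMF hESF hGFX hτ hx hf hd₀ hId₀ hs
  generalize v' • d₀ = d at hd hId hxs
  have hbd : TpS τ b d 1 := (hIMF K τ hτ x hx).2.2.2 a f b d hb hd hI hId haf
  -- the sum
  obtain ⟨hEaf, hXaf⟩ := hIAD K τ hτ a f haf 1 1 h1τ h1τ (Or.inl one_ne_zero)
  obtain ⟨hEbd, hXbd⟩ := hIAD K τ hτ b d hbd 1 1 h1τ h1τ (Or.inl one_ne_zero)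
  rw [one_smul, one_smul] at hEaf hXaf hEbd hXbd
  have hts : IsF τ (a + f) 1 ((t * s : GF τ) : Equiv.Perm (LT τ)) := hXaf _ _ ht hs
  have hxts : IsF τ (b + d) 1 ((x (t * s) : GF τ) : Equiv.Perm (LT τ)) := by
    rw [map_mul]
    exact hXbd _ _ hxt hxs
  have hafbd : fm C6 (a + f) (b + d) = 0 := by
    obtain ⟨e, he, hIe⟩ := hx (a + f) hEaf
    obtain ⟨w, -, hw⟩ := (hIe (t * s)).1 ⟨1, h1τ, hts⟩
    have h1 := hUNF K τ hτ (b + d) e w _ hEbd he hxts hw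
    rw [h1, fm_smul_right, hyp _ _ hEaf he hIe, mul_zero]
  have hab0 : fm C6 a b = 0 := hyp a b ha hb hI
  have hfd0 : fm C6 f d = 0 := hyp f d hf hd hId
  have had : fm C6 a d = 1 := by
    rw [fm_add_left, fm_add_right, fm_add_right, hab0, hfd0, hsym f b, hfm] at hafbd
    linear_combination hafbd
  have hneg : ((-1 : K) • d) = -d := by rw [neg_smul, one_smul]
  have hXd := (f_XAU 6 C6 K d (IM1_xtr hESF hτ hd)).2.2.2 (-1)
  have hEd : ExS τ (-d) := by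
    have h1 := (ef d hd).2.2.2.2.1 (-1) hm1 (neg_ne_zero.2 one_ne_zero)
    rwa [hneg] at h1
  rw [hneg] at hXd
  have hS : S3 C6 a b (-d) f := by
    refine ⟨IM1_xtr hESF hτ ha, IM1_xtr hESF hτ hb, hXd.1, IM1_xtr hESF hτ hf, ?_, hfm, hab0, ?_, ?_, ?_, ?_, ?_⟩
    · rw [fm_neg_right, had]
    · rw [fm_neg_left, hsym d f, hfd0, neg_zero]
    · exact (hTFS K τ hτ f a 1 (hTFS K τ hτ a f 1 haf).2.2.1).2.2.2.2.2.2.2.1 rfl
    · exact (hTFS K τ hτ a f 1 haf).2.2.2.2.2.2.2.1 rfl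
    · obtain ⟨w, hw1, hw2⟩ := (hTFS K τ hτ d b 1 (hTFS K τ hτ b d 1 hbd).2.2.1).2.2.2.2.2.2.2.1 rfl
      refine ⟨-w, ?_, ?_⟩
      · rw [fm_neg_left, fm_neg_right, neg_neg, hw1]
      · rw [br_neg_left, br_neg_right, neg_neg]
        exact hw2
    · obtain ⟨w, hw1, hw2⟩ := (hTFS K τ hτ b d 1 hbd).2.2.2.2.2.2.2.1 rfl
      refine ⟨-w, ?_, ?_⟩
      · rw [fm_neg_right, hw1, neg_zero]
      · rw [br_neg_right, ← hw2]
  have hxs' : IsF τ (-d) (-1) ((x s : GF τ) : Equiv.Perm (LT τ)) := by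
    intro w
    rw [hxs w, hXd.2 (-1) w, neg_mul_neg, one_mul]
  have hJ := hIJC K τ hτ h3 a b (-d) f t (x t) s (x s) ha hb hEd hf hS ht hxt hs hxs'
  refine A3.g_ZGA (GF τ) x t s ((x t * t⁻¹) ^ 2 * ((x s * s⁻¹) ^ 2)⁻¹) 3 ?_ hJ
  refine Subgroup.mul_mem _ (Subgroup.pow_mem _ (Subgroup.subset_closure ?_) _)
    (Subgroup.inv_mem _ (Subgroup.pow_mem _ (Subgroup.subset_closure ?_) _))
  · exact Set.mem_insert _ _
  · exact Set.mem_insert_of_mem _ (Set.mem_singleton _)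

end Pool.Agent.EXT
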